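import Pool.Agent.Y522.NA.AllC

/-!
# MP_28b04d_gt, Q1: smoothing paths of smooth homeomorphisms of corank at most one

Q1 asks whether every diffeomorphism of `CP²` that acts trivially on homology is smoothly isotopic
to the identity.  Such a diffeomorphism is, by the theorems of Perron and Quinn, isotopic to the
identity through homeomorphisms; the question is whether the path can be made smooth.  The theorem
treats a smooth path of homeomorphisms, stated for all closed smooth manifolds `X`, `Y` of the same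
dimension `m + 1` (for Q1 `X = Y = CP²`, `m = 3`): if two diffeomorphisms `X → Y` are joined by a
path `f_t`, smooth in both variables, of bijections (hence homeomorphisms) whose derivatives have
rank at least `m` everywhere, then they are joined by a smooth path of diffeomorphisms.

The inverses of the maps of the path need not be differentiable and nothing is assumed about the
set of critical points.  There are such paths for which no `f_t`, `0 < t < 1`, is a diffeomorphism.

The method: on `ℝ × X` the map `(t, x) ↦ (t, f_t x)` is a smooth homeomorphism of corank at most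
one over `ℝ`; near a critical point it has `m + 1` smooth linear coordinates, one of which is `t`,
and is strictly monotone along the fibres of these; the remaining coordinate is mollified in boxes,
one after the other, with control of the `C^1` distance in all the other boxes.
-/

set_option autoImplicit false

open Set Filter Topology Metric Function
open scoped Manifold ContDiff

noncomputable section

namespace Pool.Agent.Results.MP_28b04d_gt.CorankOneIsotopy

/-- the linear map `L` has rank at least `m`: composed with some linear map it is onto `ℝ^m` -/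
def RankAtLeast (m : ℕ) {n : ℕ}
    (L : EuclideanSpace ℝ (Fin n) →L[ℝ] EuclideanSpace ℝ (Fin n)) : Prop :=
  ∃ P : EuclideanSpace ℝ (Fin n) →L[ℝ] EuclideanSpace ℝ (Fin m), Surjective (fun v => P (L v))

theorem RankAtLeast.le {m n : ℕ}
    {L : EuclideanSpace ℝ (Fin n) →L[ℝ] EuclideanSpace ℝ (Fin n)} (h : RankAtLeast m L) :
    m ≤ Module.finrank ℝ (LinearMap.range L.toLinearMap) := by
  obtain ⟨P, hP⟩ := h
  have h4 : Surjective (P.toLinearMap ∘ₗ (LinearMap.range L.toLinearMap).subtype) := by
    intro w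
    obtain ⟨v, hv⟩ := hP w
    exact ⟨⟨_, LinearMap.mem_range_self _ v⟩, hv⟩
  have h5 := LinearMap.finrank_le_finrank_of_surjective h4
  rwa [finrank_euclideanSpace, Fintype.card_fin] at h5

/-- `φ` is a diffeomorphism -/
def IsDiffeo (n : ℕ) {X Y : Type} [TopologicalSpace X]
    [ChartedSpace (EuclideanSpace ℝ (Fin n)) X] [TopologicalSpace Y]
    [ChartedSpace (EuclideanSpace ℝ (Fin n)) Y] (φ : X → Y) : Prop :=
  ∃ Φ : X ≃ₘ^∞⟮𝓡 n, 𝓡 n⟯ Y, ∀ x, Φ x = φ x

/-- `φ₀` and `φ₁` are joined by a smooth path of diffeomorphisms -/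
def SmoothlyIsotopic (n : ℕ) {X Y : Type} [TopologicalSpace X]
    [ChartedSpace (EuclideanSpace ℝ (Fin n)) X] [TopologicalSpace Y]
    [ChartedSpace (EuclideanSpace ℝ (Fin n)) Y] (φ₀ φ₁ : X → Y) : Prop :=
  ∃ K : ℝ × X → Y, ContMDiff ((𝓘(ℝ, ℝ)).prod (𝓡 n)) (𝓡 n) ∞ K ∧
    (∀ t, IsDiffeo n (fun x => K (t, x))) ∧
    (∀ x, K (0, x) = φ₀ x) ∧ ∀ x, K (1, x) = φ₁ x

/-- Diffeomorphisms of closed manifolds which are joined by a smooth path of smooth bijections of
corank at most one are smoothly isotopic. -/
theorem result (m : ℕ) (X Y : Type) [TopologicalSpace X] [T2Space X] [CompactSpace X]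
    [ChartedSpace (EuclideanSpace ℝ (Fin (m + 1))) X] [IsManifold (𝓡 (m + 1)) ∞ X]
    [TopologicalSpace Y] [T2Space Y]
    [ChartedSpace (EuclideanSpace ℝ (Fin (m + 1))) Y] [IsManifold (𝓡 (m + 1)) ∞ Y]
    (f : ℝ × X → Y) (hf : ContMDiff ((𝓘(ℝ, ℝ)).prod (𝓡 (m + 1))) (𝓡 (m + 1)) ∞ f)
    (hb : ∀ t ∈ Icc (0 : ℝ) 1, Bijective (fun x => f (t, x)))
    (hr : ∀ t ∈ Icc (0 : ℝ) 1, ∀ x,
      RankAtLeast m (mfderiv (𝓡 (m + 1)) (𝓡 (m + 1)) (fun x => f (t, x)) x))
    (h0 : IsDiffeo (m + 1) (fun x => f (0, x))) (h1 : IsDiffeo (m + 1) (fun x => f (1, x))) :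
    SmoothlyIsotopic (m + 1) (fun x => f (0, x)) (fun x => f (1, x)) := by
  obtain ⟨Φ₀, e0⟩ := h0
  obtain ⟨Φ₁, e1⟩ := h1
  have e0' : (fun x => f (0, x)) = Φ₀ := funext fun x => (e0 x).symm
  have e1' : (fun x => f (1, x)) = Φ₁ := funext fun x => (e1 x).symm
  obtain ⟨K, k1, k2, k3, k4, k5⟩ := Pool.Agent.Y522.NA.coi_final m X Y f hf hb
    (fun t ht x => (hr t ht x).le)
    (fun x => by rw [e0']; exact Φ₀.isLocalDiffeomorph x)
    (fun x => by rw [e1']; exact Φ₁.isLocalDiffeomorph x)
  refine ⟨K, k1, fun t => ?_, k4, k5⟩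
  have hl : IsLocalDiffeomorph (𝓡 (m + 1)) (𝓡 (m + 1)) ∞ (fun x => K (t, x)) := k3 t
  exact ⟨hl.diffeomorphOfBijective (k2 t), fun x => rfl⟩

end Pool.Agent.Results.MP_28b04d_gt.CorankOneIsotopy
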