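import Pool.Agent.Y522.NA.AllP

/-!
# MP_28b04d_gt, Q1: smoothing paths of nearly affine maps between diffeomorphisms

Q1 asks whether every diffeomorphism of `CP²` that acts trivially on homology is smoothly isotopic
to the identity.  Such a diffeomorphism is homotopic, and by the theorems of Perron and Quinn even
isotopic through homeomorphisms, to the identity; the question is whether the path can be made
smooth.  The theorem gives a condition on a path of continuous maps, stated for all closed smooth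
`n`-manifolds `X`, `Y` (for Q1 `X = Y = CP²`, `n = 4`): if two diffeomorphisms `X → Y` are joined by
a continuous path of maps which, uniformly for nearby parameters, are affine up to a small relative
error `ε = ε(n, κ)` at all small scales, then they are joined by a smooth path of diffeomorphisms.

The maps of the path need not be injective, differentiable or Lipschitz, and the path is only
continuous in the parameter; the approximating affine maps may rotate, and may degenerate, when the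
scale goes to zero.  The distance on `X` is any distance for which the coordinates are
`κ`-bi-Lipschitz, for instance a Riemannian distance with `κ = 2`.

The method: average of mollifications in the coordinates of the source, with values in a Euclidean
space which contains the target, followed by a smooth retraction, with one scale of mollification
for all parameters; the path so obtained is continuous in the `C¹` topology, is joined to the
given diffeomorphisms at its ends, and is then smoothed in the parameter.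
-/

set_option autoImplicit false

open Set Filter Topology Metric Function
open scoped Manifold ContDiff

noncomputable section

namespace Pool.Agent.Results.MP_28b04d_gt.NearlyAffineIsotopy

/-- The maps `f t : X → Y`, `0 ≤ t ≤ 1`, are nearly affine at `x` with error `ε`, uniformly for `t`
near `t₀`: there are smooth coordinates `A` around `x` (a local diffeomorphism from `ℝ^n` at `0`
with `A 0 = x`) and `B` around `f t₀ x` (a local diffeomorphism to `ℝ^n` at `f t₀ x`) and `ρ > 0`
such that `A` is `κ`-bi-Lipschitz on the `ρ`-ball and for every `t` in `[0, 1]` with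
`|t - t₀| < ρ`, every point `p` of the `ρ`-ball and every scale `0 < r < ρ` there is a linear
isomorphism `L` such that `g = B ∘ f t ∘ A` satisfies `‖L⁻¹ (g (p + v) - g p) - v‖ ≤ ε r` whenever
`‖v‖ ≤ r`. -/
def NearlyAffineAt (n : ℕ) (κ ε : ℝ) {X Y : Type} [MetricSpace X]
    [ChartedSpace (EuclideanSpace ℝ (Fin n)) X] [TopologicalSpace Y]
    [ChartedSpace (EuclideanSpace ℝ (Fin n)) Y] (f : ℝ → X → Y) (t₀ : ℝ) (x : X) : Prop :=
  ∃ (A : EuclideanSpace ℝ (Fin n) → X) (B : Y → EuclideanSpace ℝ (Fin n)),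
    A 0 = x ∧ IsLocalDiffeomorphAt (𝓡 n) (𝓡 n) ∞ A 0 ∧
    IsLocalDiffeomorphAt (𝓡 n) (𝓡 n) ∞ B (f t₀ x) ∧
    ∃ ρ : ℝ, 0 < ρ ∧
      (∀ p q : EuclideanSpace ℝ (Fin n), ‖p‖ < ρ → ‖q‖ < ρ →
        ‖p - q‖ ≤ κ * dist (A p) (A q) ∧ dist (A p) (A q) ≤ κ * ‖p - q‖) ∧
      ∀ t ∈ Icc (0 : ℝ) 1, |t - t₀| < ρ →
        ∀ p : EuclideanSpace ℝ (Fin n), ‖p‖ < ρ → ∀ r : ℝ, 0 < r → r < ρ →
        ∃ L : EuclideanSpace ℝ (Fin n) ≃L[ℝ] EuclideanSpace ℝ (Fin n),
          ∀ v : EuclideanSpace ℝ (Fin n), ‖v‖ ≤ r →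
            ‖L.symm (B (f t (A (p + v))) - B (f t (A p))) - v‖ ≤ ε * r

/-- `φ` is a diffeomorphism -/
def IsDiffeo (n : ℕ) {X Y : Type} [TopologicalSpace X]
    [ChartedSpace (EuclideanSpace ℝ (Fin n)) X] [TopologicalSpace Y]
    [ChartedSpace (EuclideanSpace ℝ (Fin n)) Y] (φ : X → Y) : Prop :=
  ∃ Φ : X ≃ₘ^∞⟮𝓡 n, 𝓡 n⟯ Y, ∀ x, Φ x = φ x

/-- `φ₀` and `φ₁` are joined by a smooth path of diffeomorphisms -/
def SmoothlyIsotopic (n : ℕ) {X Y : Type} [TopologicalSpace X]
    [ChartedSpace (EuclideanSpace ℝ (Fin n)) X] [TopologicalSpace Y]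
    [ChartedSpace (EuclideanSpace ℝ (Fin n)) Y] (φ₀ φ₁ : X → Y) : Prop :=
  ∃ K : ℝ × X → Y, ContMDiff ((𝓘(ℝ, ℝ)).prod (𝓡 n)) (𝓡 n) ∞ K ∧
    (∀ t, IsDiffeo n (fun x => K (t, x))) ∧
    (∀ x, K (0, x) = φ₀ x) ∧ ∀ x, K (1, x) = φ₁ x

/-- Diffeomorphisms of closed connected manifolds which are joined by a path of uniformly nearly
affine maps are smoothly isotopic. -/
theorem result (n : ℕ) (κ : ℝ) : ∃ ε : ℝ, 0 < ε ∧
    ∀ (X Y : Type) [MetricSpace X] [CompactSpace X] [ConnectedSpace X]
      [ChartedSpace (EuclideanSpace ℝ (Fin n)) X] [IsManifold (𝓡 n) ∞ X]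
      [TopologicalSpace Y] [T2Space Y]
      [ChartedSpace (EuclideanSpace ℝ (Fin n)) Y] [IsManifold (𝓡 n) ∞ Y] (f : ℝ → X → Y),
      ContinuousOn (fun w : ℝ × X => f w.1 w.2) (Icc (0 : ℝ) 1 ×ˢ univ) →
      (∀ t ∈ Icc (0 : ℝ) 1, ∀ x, NearlyAffineAt n κ ε f t x) →
      IsDiffeo n (f 0) → IsDiffeo n (f 1) → SmoothlyIsotopic n (f 0) (f 1) := by
  obtain ⟨ε, hε, h⟩ := Pool.Agent.Y522.NA.stIso n κ
  refine ⟨ε, hε, fun X Y _ _ _ _ _ _ _ _ _ f hf hN ⟨Φ₀, h0⟩ ⟨Φ₁, h1⟩ => ?_⟩
  have e0 : f 0 = Φ₀ := funext fun x => (h0 x).symm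
  have e1 : f 1 = Φ₁ := funext fun x => (h1 x).symm
  obtain ⟨K, k1, k2, k3, k4, k5⟩ := h X Y f hf hN (by rw [e0]; exact Φ₀.bijective)
    (fun x => by rw [e0]; exact Φ₀.isLocalDiffeomorph x)
    (fun x => by rw [e1]; exact Φ₁.isLocalDiffeomorph x)
  refine ⟨K, k1, fun t => ?_, k4, k5⟩
  have hl : IsLocalDiffeomorph (𝓡 n) (𝓡 n) ∞ (fun x => K (t, x)) := k3 t
  exact ⟨hl.diffeomorphOfBijective (k2 t), fun x => rfl⟩

end Pool.Agent.Results.MP_28b04d_gt.NearlyAffineIsotopy
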